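import Pool.Agent.Q153.PonagP

/-!
MP_4977a6_gt: Bob can have a winning strategy in `PONAG(X)` on a Menger space `X` without having a
winning strategy in the Menger game.  The definitions (`Pona`, `BobWinsPonag`, `Menger`,
`BobWinsMenger`) are in `Pool/Agent/Q153/PonagDefs.lean`.

The example (ZFC) is a Lindelöf `P`-space: the points are the finite sequences of countable ordinals
and one strictly increasing sequence `(c_δ(n))` with limit `δ` for every countable limit ordinal `δ`;
the infinite sequences are isolated and `U` is open if for every finite sequence `s ∈ U` there is
`α < ω₁` such that `U` contains all points which extend `s` and whose next entry, if there is one, is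
at least `α`.  Countable sets are closed and discrete and open covers have countable subcovers, so
Bob wins `PONAG(X)` in the first round.  In the Menger game Alice beats every strategy of Bob with
the covers by the finite unions of the basic neighbourhoods with a fixed index `α < ω₁`.
-/

set_option autoImplicit false

namespace Pool.Agent.Results.MP_4977a6_gt.Disproof

open Set Pool.Agent.Q153.Ponag

/-- There is an infinite Hausdorff Lindelöf space `X` with a base of clopen sets which is Menger,
such that Bob has a winning strategy in `PONAG(X)` and no winning strategy in the Menger game. -/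
theorem result : ∃ (X : Type) (_ : TopologicalSpace X), T2Space X ∧ Infinite X ∧ LindelofSpace X ∧
    (∀ U : Set X, IsOpen U → ∀ x ∈ U, ∃ V : Set X, IsClopen V ∧ x ∈ V ∧ V ⊆ U) ∧
    Menger X ∧ BobWinsPonag X ∧ ¬ BobWinsMenger X :=
  ⟨Pool.Agent.Q153.KGame.Pt, inferInstance, Pool.Agent.Q153.KGame.t2, pt_infinite,
    Pool.Agent.Q153.KGame.lindelof, Pool.Agent.Q153.KGame.exists_clopen, pt_menger,
    pt_oneRound.bob, pt_not_bob⟩

end Pool.Agent.Results.MP_4977a6_gt.Disproof
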